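import Pool.Agent.H98.Cubic.Targets
import Pool.Agent.H98.Cubic.Basic

/-!
Cubic moment of Hardy's function (`MP_56c76e_nt`, helper98's project): module [LemQ],
quadratic exponential sums with periodic coefficients, from [TP] and [Fres].
-/

set_option autoImplicit false

namespace Pool.Agent.H49.Cubic

open Finset Pool.Agent.H98.Cubic

/-- the sign factor. -/
noncomputable def sf (ε : ℝ) : ℂ := if 0 < ε then ee (1 / 8) else ee (-1 / 8)

theorem norm_sf (ε : ℝ) : ‖sf ε‖ = 1 := by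
  unfold sf; split_ifs <;> simp

/-- Fresnel integrals for both signs of `ε`. -/
theorem fres_gen (h : TFres) : ∃ C : ℝ, 0 < C ∧ ∀ ε ρ y₁ y₂ : ℝ, ε ≠ 0 → y₁ ≤ y₂ →
    ‖(∫ y in y₁..y₂, ee (ε * y ^ 2 / 2 - ρ * y)) -
        (if y₁ ≤ ρ / ε ∧ ρ / ε ≤ y₂ then
          ((1 / Real.sqrt |ε| : ℝ) : ℂ) * sf ε * ee (-(ρ ^ 2 / (2 * ε))) else 0)‖
      ≤ C * (mn (1 / Real.sqrt |ε|) (ε * y₁ - ρ) + mn (1 / Real.sqrt |ε|) (ε * y₂ - ρ)) := by
  obtain ⟨C, hC, H⟩ := h
  refine ⟨C, hC, fun ε ρ y₁ y₂ hε hy => ?_⟩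
  rcases lt_or_gt_of_ne hε with hneg | hpos
  · have h1 := H (-ε) (-ρ) y₁ y₂ (by linarith) hy
    rw [neg_div_neg_eq] at h1
    have h2 : ‖(starRingEnd ℂ) ((∫ y in y₁..y₂, ee (-ε * y ^ 2 / 2 - -ρ * y)) -
        (if y₁ ≤ ρ / ε ∧ ρ / ε ≤ y₂ then
          ((1 / Real.sqrt (-ε) : ℝ) : ℂ) * ee (1 / 8 - (-ρ) ^ 2 / (2 * (-ε))) else 0))‖ ≤
        C * (mn (1 / Real.sqrt (-ε)) (-ε * y₁ - -ρ) + mn (1 / Real.sqrt (-ε)) (-ε * y₂ - -ρ)) := by
      rw [RCLike.norm_conj]; exact h1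
    rw [map_sub, ← intervalIntegral.intervalIntegral_conj] at h2
    have e1 : (∫ y in y₁..y₂, (starRingEnd ℂ) (ee (-ε * y ^ 2 / 2 - -ρ * y))) =
        ∫ y in y₁..y₂, ee (ε * y ^ 2 / 2 - ρ * y) := by
      apply intervalIntegral.integral_congr
      intro y _
      simp only
      rw [conj_ee]; congr 1; ring
    have e2 : (starRingEnd ℂ) (if y₁ ≤ ρ / ε ∧ ρ / ε ≤ y₂ then
          ((1 / Real.sqrt (-ε) : ℝ) : ℂ) * ee (1 / 8 - (-ρ) ^ 2 / (2 * (-ε))) else 0) =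
        (if y₁ ≤ ρ / ε ∧ ρ / ε ≤ y₂ then
          ((1 / Real.sqrt |ε| : ℝ) : ℂ) * sf ε * ee (-(ρ ^ 2 / (2 * ε))) else 0) := by
      split_ifs with hc
      · rw [map_mul, Complex.conj_ofReal, conj_ee, abs_of_neg hneg, mul_assoc]
        congr 1
        unfold sf
        rw [if_neg (not_lt.mpr hneg.le), ← ee_add]
        congr 1
        have : (-ρ) ^ 2 / (2 * (-ε)) = -(ρ ^ 2 / (2 * ε)) := by
          rw [neg_sq, mul_neg, div_neg]
        rw [this]; ring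
      · simp
    rw [e1, e2] at h2
    have e3 : -ε * y₁ - -ρ = -(ε * y₁ - ρ) := by ring
    have e4 : -ε * y₂ - -ρ = -(ε * y₂ - ρ) := by ring
    rw [e3, e4, mn_neg, mn_neg, ← abs_of_neg hneg] at h2
    exact h2
  · have h1 := H ε ρ y₁ y₂ hpos hy
    have e2 : (if y₁ ≤ ρ / ε ∧ ρ / ε ≤ y₂ then
          ((1 / Real.sqrt ε : ℝ) : ℂ) * ee (1 / 8 - ρ ^ 2 / (2 * ε)) else 0) =
        (if y₁ ≤ ρ / ε ∧ ρ / ε ≤ y₂ then
          ((1 / Real.sqrt |ε| : ℝ) : ℂ) * sf ε * ee (-(ρ ^ 2 / (2 * ε))) else 0) := by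
      split_ifs with hc
      · rw [abs_of_pos hpos, mul_assoc]
        congr 1
        unfold sf
        rw [if_pos hpos, ← ee_add]
        congr 1
      · rfl
    rw [e2] at h1
    rw [abs_of_pos hpos] at h1 ⊢
    exact h1

/-- harmonic sums over an interval of integers. -/
theorem sum_inv_le (K : ℕ) : ∑ j ∈ Icc 1 K, (1 : ℝ) / j ≤ 1 + Real.log K := by
  have h := harmonic_le_one_add_log K
  have h2 : ((harmonic K : ℚ) : ℝ) = ∑ j ∈ Icc 1 K, (1 : ℝ) / j := by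
    rw [harmonic_eq_sum_Icc]
    push_cast
    simp [one_div]
  rw [h2] at h
  exact h

theorem sum_mn_le (A y : ℝ) (D K : ℕ) (hD : 0 < D) (hA : 0 ≤ A) (hy : |y| ≤ K) :
    ∑ r ∈ Icc (-(K : ℤ)) K, mn A ((y - r) / D) ≤
      2 * A + 2 * D * (1 + Real.log (2 * K : ℕ)) := by
  have hD' : (0 : ℝ) < D := by exact_mod_cast hD
  have hK1 : -(K : ℝ) ≤ y := (abs_le.mp hy).1
  have hK2 : y ≤ K := (abs_le.mp hy).2
  set n : ℤ := ⌊y⌋ with hn
  have hn1 : (n : ℝ) ≤ y := Int.floor_le y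
  have hn2 : y < n + 1 := Int.lt_floor_add_one y
  have hn3 : -(K : ℤ) ≤ n := Int.le_floor.mpr (by push_cast; exact hK1)
  have hn4 : n ≤ K := by
    have : (n : ℝ) ≤ K := hn1.trans hK2
    exact_mod_cast this
  have hterm : ∀ r : ℤ, y ≠ r → mn A ((y - r) / D) ≤ D / |y - r| := by
    intro r hr
    have h1 : (y - r) / D ≠ 0 := div_ne_zero (sub_ne_zero.mpr hr) hD'.ne'
    refine (mn_le_inv hA h1).trans ?_
    rw [abs_div, abs_of_pos hD', one_div_div]
  -- split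
  have hsub : Icc (-(K : ℤ)) K ⊆ (Icc (-(K : ℤ)) (n - 1)) ∪ ({n, n + 1} ∪ Icc (n + 2) (K : ℤ)) := by
    intro r hr
    simp only [mem_Icc, mem_union, mem_insert, mem_singleton] at hr ⊢
    omega
  have h0 : ∀ r : ℤ, 0 ≤ mn A ((y - r) / D) := fun r => mn_nonneg hA _
  refine (sum_le_sum_of_subset_of_nonneg hsub (fun r _ _ => h0 r)).trans ?_
  have hu : ∀ (s t : Finset ℤ), ∑ r ∈ s ∪ t, mn A ((y - r) / D) ≤
      ∑ r ∈ s, mn A ((y - r) / D) + ∑ r ∈ t, mn A ((y - r) / D) := by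
    intro s t
    rw [← sum_union_inter]
    have : 0 ≤ ∑ r ∈ s ∩ t, mn A ((y - r) / D) := sum_nonneg (fun r _ => h0 r)
    linarith
  refine (hu _ _).trans ?_
  have hmid : ∑ r ∈ ({n, n + 1} : Finset ℤ), mn A ((y - r) / D) ≤ 2 * A := by
    rw [sum_pair (by omega)]
    have h1 := mn_le_left hA ((y - n) / D)
    have h2 := mn_le_left hA ((y - ((n + 1 : ℤ) : ℝ)) / D)
    linarith
  have hlow : ∑ r ∈ Icc (-(K : ℤ)) (n - 1), mn A ((y - r) / D) ≤
      D * (1 + Real.log (2 * K : ℕ)) := by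
    refine le_trans ?_ (mul_le_mul_of_nonneg_left (sum_inv_le (2 * K)) hD'.le)
    rw [mul_sum]
    refine (sum_le_sum (g := fun r : ℤ => (D : ℝ) * (1 / ((n - r).toNat : ℝ))) ?_).trans ?_
    · intro r hr
      rw [mem_Icc] at hr
      have h1 : ((n - r).toNat : ℝ) = (n : ℝ) - r := by
        have : ((n - r).toNat : ℤ) = n - r := Int.toNat_of_nonneg (by omega)
        exact_mod_cast this
      have h2 : (1 : ℝ) ≤ (n : ℝ) - r := by
        have : (1 : ℤ) ≤ n - r := by omega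
        exact_mod_cast this
      refine (hterm r (by intro h; rw [h] at hn1; linarith)).trans ?_
      rw [h1, mul_one_div]
      apply div_le_div_of_nonneg_left hD'.le (by linarith)
      rw [abs_of_nonneg (by linarith)]
      linarith
    · rw [← sum_image (s := Icc (-(K : ℤ)) (n - 1)) (g := fun r : ℤ => (n - r).toNat)
        (f := fun j : ℕ => (D : ℝ) * (1 / (j : ℝ)))]
      · apply sum_le_sum_of_subset_of_nonneg
        · intro j hj
          simp only [mem_image, mem_Icc] at hj ⊢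
          obtain ⟨r, hr, rfl⟩ := hj
          omega
        · intros; positivity
      · intro r hr r' hr' h
        simp only [coe_Icc, Set.mem_Icc] at hr hr'
        simp only at h
        omega
  have hhigh : ∑ r ∈ Icc (n + 2) (K : ℤ), mn A ((y - r) / D) ≤
      D * (1 + Real.log (2 * K : ℕ)) := by
    refine le_trans ?_ (mul_le_mul_of_nonneg_left (sum_inv_le (2 * K)) hD'.le)
    rw [mul_sum]
    refine (sum_le_sum (g := fun r : ℤ => (D : ℝ) * (1 / ((r - n - 1).toNat : ℝ))) ?_).trans ?_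
    · intro r hr
      rw [mem_Icc] at hr
      have h1 : ((r - n - 1).toNat : ℝ) = (r : ℝ) - n - 1 := by
        have : ((r - n - 1).toNat : ℤ) = r - n - 1 := Int.toNat_of_nonneg (by omega)
        exact_mod_cast this
      have h2 : (1 : ℝ) ≤ (r : ℝ) - n - 1 := by
        have : (1 : ℤ) ≤ r - n - 1 := by omega
        exact_mod_cast this
      refine (hterm r (by intro h; rw [h] at hn2; linarith)).trans ?_
      rw [h1, mul_one_div]
      apply div_le_div_of_nonneg_left hD'.le (by linarith)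
      rw [abs_of_nonpos (by linarith)]
      linarith
    · rw [← sum_image (s := Icc (n + 2) (K : ℤ)) (g := fun r : ℤ => (r - n - 1).toNat)
        (f := fun j : ℕ => (D : ℝ) * (1 / (j : ℝ)))]
      · apply sum_le_sum_of_subset_of_nonneg
        · intro j hj
          simp only [mem_image, mem_Icc] at hj ⊢
          obtain ⟨r, hr, rfl⟩ := hj
          omega
        · intros; positivity
      · intro r hr r' hr' h
        simp only [coe_Icc, Set.mem_Icc] at hr hr'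
        simp only at h
        omega
  have := hu ({n, n + 1}) (Icc (n + 2) (K : ℤ))
  linarith

/-- reindexing by division with remainder. -/
theorem sum_divmod {E : Type*} [AddCommMonoid E] (D M : ℕ) (hD : 0 < D) (F : ℤ → E) :
    ∑ r ∈ range D, ∑ ν ∈ Icc (-(M : ℤ) - 1) M, F ((r : ℤ) + D * ν) =
      ∑ r ∈ Ico (-((D : ℤ) * (M + 1))) ((D : ℤ) * (M + 1)), F r := by
  have hD' : (0 : ℤ) < D := by exact_mod_cast hD
  rw [← sum_product']
  refine sum_nbij' (fun x => (x.1 : ℤ) + D * x.2) (fun r => ((r % D).toNat, r / D)) ?_ ?_ ?_ ?_ ?_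
  · rintro ⟨r, ν⟩ h
    simp only [mem_product, mem_range, mem_Icc, mem_Ico] at h ⊢
    obtain ⟨h1, h2, h3⟩ := h
    have h1' : (r : ℤ) < D := by exact_mod_cast h1
    constructor
    · nlinarith
    · nlinarith
  · intro r h
    simp only [mem_product, mem_range, mem_Icc, mem_Ico] at h ⊢
    obtain ⟨h1, h2⟩ := h
    have h3 := Int.emod_nonneg r hD'.ne'
    have h4 := Int.emod_lt_of_pos r hD'
    refine ⟨by omega, ?_, ?_⟩
    · rw [Int.le_ediv_iff_mul_le hD']; linarith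
    · have : r / D < M + 1 := by rw [Int.ediv_lt_iff_lt_mul hD']; linarith
      omega
  · rintro ⟨r, ν⟩ h
    simp only [mem_product, mem_range, mem_Icc] at h
    obtain ⟨h1, h2, h3⟩ := h
    have h1' : (r : ℤ) < D := by exact_mod_cast h1
    have e1 : ((r : ℤ) + D * ν) % D = r := by
      rw [Int.add_mul_emod_self_left]; exact Int.emod_eq_of_lt (by positivity) h1'
    have e2 : ((r : ℤ) + D * ν) / D = ν := by
      rw [Int.add_mul_ediv_left _ _ hD'.ne', Int.ediv_eq_zero_of_lt (by positivity) h1', zero_add]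
    simp only [e1, e2]
    simp
  · intro r h
    simp only
    rw [Int.toNat_of_nonneg (Int.emod_nonneg r hD'.ne')]
    exact Int.emod_add_mul_ediv r D
  · rintro ⟨r, ν⟩ h
    rfl

/-- the main term of the Fresnel integral. -/
noncomputable def MT (D : ℕ) (ε y₁ y₂ : ℝ) (r : ℤ) : ℂ :=
  if y₁ ≤ (r : ℝ) / D / ε ∧ (r : ℝ) / D / ε ≤ y₂ then
    ((1 / Real.sqrt |ε| : ℝ) : ℂ) * sf ε * ee (-(((r : ℝ) / D) ^ 2 / (2 * ε))) else 0

theorem lemQ (h1 : TTP) (h2 : TFres) : TLemQ := by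
  obtain ⟨C₁, hC₁, HT⟩ := h1
  obtain ⟨C₂, hC₂, HF⟩ := fres_gen h2
  refine ⟨3 * C₁ + 12 * C₂, by positivity, ?_⟩
  intro D R B L ε y₁ y₂ w hD hB hper hw hε hy₁ hy₂ hL hR
  have hD' : (0 : ℝ) < D := by exact_mod_cast hD
  have hD1 : (1 : ℝ) ≤ D := by exact_mod_cast hD
  have hεa : 0 < |ε| := abs_pos.mpr hε
  have hℓ : 0 ≤ Real.log (1 + |ε| * L) := Real.log_nonneg (by nlinarith)
  have hlD : 0 ≤ Real.log D := Real.log_nonneg hD1
  have hA : 0 ≤ 1 / Real.sqrt |ε| := by positivity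
  rcases lt_or_ge y₂ y₁ with hlt | hle
  · have e1 : Icc ⌈y₁⌉ ⌊y₂⌋ = ∅ := by
      apply Icc_eq_empty
      intro h
      have h3 : (⌊y₂⌋ : ℝ) ≤ y₂ := Int.floor_le y₂
      have h4 : y₁ ≤ ⌈y₁⌉ := Int.le_ceil y₁
      have h5 : ((⌈y₁⌉ : ℤ) : ℝ) ≤ ⌊y₂⌋ := by exact_mod_cast h
      linarith
    have e2 : (Icc (-(R : ℤ)) R).filter
            (fun r : ℤ => y₁ ≤ (r : ℝ) / (D * ε) ∧ (r : ℝ) / (D * ε) ≤ y₂) = ∅ := by
      apply filter_eq_empty_iff.mpr
      intro r _ h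
      linarith [h.1, h.2]
    rw [e1, e2]
    simp only [sum_empty, sub_zero, norm_zero]
    positivity
  -- the parameters
  obtain ⟨M, hM, hM2⟩ : ∃ M : ℕ, |ε| * L ≤ M ∧ (M : ℝ) < |ε| * L + 1 :=
    ⟨⌈|ε| * L⌉₊, Nat.le_ceil _, Nat.ceil_lt_add_one (by positivity)⟩
  have hab : ∀ y ∈ Set.Icc y₁ y₂, |ε * y| ≤ M := by
    intro y hy
    rw [abs_mul]
    refine le_trans ?_ hM
    apply mul_le_mul_of_nonneg_left _ hεa.le
    rw [abs_of_nonneg (hy₁.trans hy.1)]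
    exact hy.2.trans hy₂
  set I : ℤ → ℂ := fun r => ∫ y in y₁..y₂, ee (ε * y ^ 2 / 2 - (r : ℝ) / D * y) with hI
  have hlog : Real.log (2 * M + 2) ≤ 2 + Real.log (1 + |ε| * L) := by
    have e4 : Real.log 4 ≤ 2 := by
      have h4 : Real.log 4 = 2 * Real.log 2 := by
        rw [show (4 : ℝ) = 2 ^ 2 by norm_num, Real.log_pow]; norm_num
      have := Real.log_two_lt_d9
      rw [h4]; linarith
    have : Real.log (2 * M + 2) ≤ Real.log (4 * (1 + |ε| * L)) :=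
      Real.log_le_log (by positivity) (by nlinarith)
    rw [Real.log_mul (by norm_num) (by positivity)] at this
    linarith
  have hTP : ∀ r ∈ range D, ‖(∑ y ∈ Icc ⌈y₁⌉ ⌊y₂⌋, ee (ε * (y : ℝ) ^ 2 / 2 - (r : ℝ) / D * y)) -
      ∑ ν ∈ Icc (-(M : ℤ) - 1) M, I ((r : ℤ) + D * ν)‖ ≤
      C₁ * (3 + Real.log (1 + |ε| * L)) := by
    intro r hr
    rw [mem_range] at hr
    have hr1 : (r : ℝ) / D ≤ 1 := by
      rw [div_le_one hD']; exact_mod_cast hr.le
    have hr0 : 0 ≤ (r : ℝ) / D := by positivity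
    have key := HT y₁ y₂ (-(M : ℤ) - 1) M (fun x => ε * x ^ 2 / 2 - (r : ℝ) / D * x)
      (fun x => ε * x - (r : ℝ) / D) (fun _ => ε) (fun _ => 1) (fun _ => 0) hle (by omega)
      (fun x _ => by
        have h1 : HasDerivAt (fun x : ℝ => ε * x ^ 2 / 2 - (r : ℝ) / D * x)
            (ε * (2 * x ^ (2 - 1) * 1) / 2 - (r : ℝ) / D * 1) x :=
          ((((hasDerivAt_id' x).pow 2).const_mul ε).div_const 2).sub
            ((hasDerivAt_id' x).const_mul _)
        convert h1 using 1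
        simp; ring)
      (fun x _ => by
        have h1 : HasDerivAt (fun x : ℝ => ε * x - (r : ℝ) / D) (ε * 1) x :=
          ((hasDerivAt_id' x).const_mul ε).sub_const _
        simpa using h1)
      (fun x _ => hasDerivAt_const x _) continuousOn_const continuousOn_const
      (fun x hx => by
        have := abs_le.mp (hab x hx)
        push_cast
        constructor <;> linarith [this.1, this.2])
      (by
        rcases lt_or_gt_of_ne hε with h | h
        · exact Or.inr (fun _ _ => h.le)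
        · exact Or.inl (fun _ _ => h.le))
      (fun _ _ => zero_le_one) (fun _ _ => le_rfl)
    have e1 : (∑ n ∈ Icc ⌈y₁⌉ ⌊y₂⌋, (((1 : ℝ) : ℝ) : ℂ) *
        ee (ε * (n : ℝ) ^ 2 / 2 - (r : ℝ) / D * n)) =
        ∑ y ∈ Icc ⌈y₁⌉ ⌊y₂⌋, ee (ε * (y : ℝ) ^ 2 / 2 - (r : ℝ) / D * y) := by
      apply sum_congr rfl; intro n _; simp
    have e2 : (∑ ν ∈ Icc (-(M : ℤ) - 1) M, ∫ x in y₁..y₂, (((1 : ℝ) : ℝ) : ℂ) *
        ee (ε * x ^ 2 / 2 - (r : ℝ) / D * x - ν * x)) =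
        ∑ ν ∈ Icc (-(M : ℤ) - 1) M, I ((r : ℤ) + D * ν) := by
      apply sum_congr rfl; intro ν _
      rw [hI]
      apply intervalIntegral.integral_congr
      intro x _
      simp only [Complex.ofReal_one, one_mul]
      congr 1
      push_cast
      field_simp
      ring
    rw [e1, e2] at key
    refine key.trans ?_
    rw [mul_one]
    apply mul_le_mul_of_nonneg_left _ hC₁.le
    have e3 : (1 : ℝ) + (((M : ℤ) : ℝ) - ((-(M : ℤ) - 1 : ℤ) : ℝ)) = 2 * M + 2 := by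
      push_cast; ring
    rw [e3]
    linarith
  -- Fresnel
  have hFr : ∀ r : ℤ, ‖I r - MT D ε y₁ y₂ r‖ ≤
      C₂ * (mn (1 / Real.sqrt |ε|) ((D * (ε * y₁) - r) / D) +
        mn (1 / Real.sqrt |ε|) ((D * (ε * y₂) - r) / D)) := by
    intro r
    have key := HF ε ((r : ℝ) / D) y₁ y₂ hε hle
    have e1 : ∀ z : ℝ, (D * z - r) / D = z - (r : ℝ) / D := by intro z; field_simp
    rw [e1, e1]
    exact key
  set K : ℕ := D * (M + 1) with hK
  have hKr : ((K : ℕ) : ℝ) = D * (M + 1) := by rw [hK]; push_cast; ring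
  have hKz : ((K : ℕ) : ℤ) = D * (M + 1) := by rw [hK]; push_cast; ring
  have hyK : ∀ y ∈ Set.Icc y₁ y₂, |D * (ε * y)| ≤ K := by
    intro y hy
    rw [abs_mul, abs_of_pos hD', hKr]
    apply mul_le_mul_of_nonneg_left _ hD'.le
    linarith [hab y hy]
  have hlogK : Real.log (2 * K : ℕ) ≤ Real.log D + (2 + Real.log (1 + |ε| * L)) := by
    have : (((2 * K : ℕ)) : ℝ) = D * (2 * M + 2) := by push_cast; rw [hKr]; ring
    rw [this, Real.log_mul (by positivity) (by positivity)]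
    linarith
  have hsum : ∀ y ∈ Set.Icc y₁ y₂,
      ∑ r ∈ Ico (-(K : ℤ)) K, mn (1 / Real.sqrt |ε|) ((D * (ε * y) - r) / D) ≤
      2 * (1 / Real.sqrt |ε|) + 2 * D * (3 + Real.log D + Real.log (1 + |ε| * L)) := by
    intro y hy
    have h3 := sum_mn_le (1 / Real.sqrt |ε|) (D * (ε * y)) D K hD hA (hyK y hy)
    have h4 : ∑ r ∈ Ico (-(K : ℤ)) K, mn (1 / Real.sqrt |ε|) ((D * (ε * y) - r) / D) ≤
        ∑ r ∈ Icc (-(K : ℤ)) K, mn (1 / Real.sqrt |ε|) ((D * (ε * y) - r) / D) :=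
      sum_le_sum_of_subset_of_nonneg Ico_subset_Icc_self (fun r _ _ => mn_nonneg hA _)
    refine h4.trans (h3.trans ?_)
    have h5 : 2 * (D : ℝ) * (1 + Real.log (2 * K : ℕ)) ≤
        2 * D * (3 + Real.log D + Real.log (1 + |ε| * L)) := by
      apply mul_le_mul_of_nonneg_left _ (by positivity)
      linarith
    linarith
  -- periodicity
  have hper' : ∀ r ν : ℤ, w (r + D * ν) = w r := by
    have : Function.Periodic w (D : ℤ) := hper
    intro r ν
    rw [mul_comm]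
    exact this.int_mul ν r
  -- first sum
  have eL : (∑ y ∈ Icc ⌈y₁⌉ ⌊y₂⌋,
          (∑ r ∈ range D, w r * ee (-((r : ℝ) * y) / (D : ℝ))) * ee (ε * (y : ℝ) ^ 2 / 2)) =
      ∑ r ∈ range D, w r * ∑ y ∈ Icc ⌈y₁⌉ ⌊y₂⌋, ee (ε * (y : ℝ) ^ 2 / 2 - (r : ℝ) / D * y) := by
    simp_rw [sum_mul, mul_sum]
    rw [sum_comm]
    apply sum_congr rfl; intro r _
    apply sum_congr rfl; intro y _
    rw [mul_assoc, ← ee_add]
    congr 2
    ring
  -- main sum
  have eM : (∑ r ∈ (Icc (-(R : ℤ)) R).filter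
            (fun r : ℤ => y₁ ≤ (r : ℝ) / (D * ε) ∧ (r : ℝ) / (D * ε) ≤ y₂),
          w r * ((1 / Real.sqrt |ε| : ℝ) : ℂ) * (if 0 < ε then ee (1 / 8) else ee (-1 / 8)) *
            ee (-((r : ℝ) ^ 2) / (2 * (D : ℝ) ^ 2 * ε))) =
      ∑ r ∈ Ico (-(K : ℤ)) K, w r * MT D ε y₁ y₂ r := by
    have hset : (Icc (-(R : ℤ)) R).filter
            (fun r : ℤ => y₁ ≤ (r : ℝ) / (D * ε) ∧ (r : ℝ) / (D * ε) ≤ y₂) =
        (Ico (-(K : ℤ)) K).filter
            (fun r : ℤ => y₁ ≤ (r : ℝ) / (D * ε) ∧ (r : ℝ) / (D * ε) ≤ y₂) := by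
      ext r
      simp only [mem_filter, mem_Icc, mem_Ico]
      have hb : y₁ ≤ (r : ℝ) / (D * ε) ∧ (r : ℝ) / (D * ε) ≤ y₂ →
          |(r : ℝ)| ≤ D * |ε| * L := by
        rintro ⟨h3, h4⟩
        have h5 : |(r : ℝ) / (D * ε)| ≤ L := by
          rw [abs_of_nonneg (hy₁.trans h3)]; exact h4.trans hy₂
        rw [abs_div, abs_mul, abs_of_pos hD', div_le_iff₀ (by positivity)] at h5
        linarith
      constructor
      · rintro ⟨_, h3⟩
        refine ⟨?_, h3⟩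
        have h4 := hb h3
        have h5 : |(r : ℝ)| < K := by
          rw [hKr]
          have : D * |ε| * L ≤ D * M := by
            rw [mul_assoc]; exact mul_le_mul_of_nonneg_left hM hD'.le
          nlinarith
        have h6 := abs_lt.mp h5
        constructor
        · have : (-(K : ℤ) : ℝ) < r := by push_cast; exact h6.1
          have : -(K : ℤ) < r := by exact_mod_cast this
          exact this.le
        · exact_mod_cast h6.2
      · rintro ⟨_, h3⟩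
        refine ⟨?_, h3⟩
        have h5 := abs_le.mp ((hb h3).trans hR)
        constructor
        · have : (-(R : ℤ) : ℝ) ≤ r := by push_cast; exact h5.1
          exact_mod_cast this
        · exact_mod_cast h5.2
    rw [hset, sum_filter, show (if 0 < ε then ee (1 / 8) else ee (-1 / 8)) = sf ε from rfl]
    apply sum_congr rfl
    intro r _
    unfold MT
    have e1 : (r : ℝ) / D / ε = (r : ℝ) / (D * ε) := by rw [div_div]
    have e2 : -((r : ℝ) ^ 2) / (2 * (D : ℝ) ^ 2 * ε) = -(((r : ℝ) / D) ^ 2 / (2 * ε)) := by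
      field_simp
    rw [e1, e2]
    split_ifs with hc
    · rw [mul_assoc, mul_assoc, mul_assoc]
    · rw [mul_zero]
  rw [eL, eM]
  -- combine
  have eR : ∑ r ∈ Ico (-(K : ℤ)) K, w r * I r =
      ∑ r ∈ range D, w r * ∑ ν ∈ Icc (-(M : ℤ) - 1) M, I ((r : ℤ) + D * ν) := by
    rw [hKz, ← sum_divmod D M hD (fun r => w r * I r)]
    apply sum_congr rfl; intro r _
    rw [mul_sum]
    apply sum_congr rfl; intro ν _
    rw [hper']
  have eT : (∑ r ∈ range D, w r * ∑ y ∈ Icc ⌈y₁⌉ ⌊y₂⌋,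
        ee (ε * (y : ℝ) ^ 2 / 2 - (r : ℝ) / D * y)) -
      ∑ r ∈ Ico (-(K : ℤ)) K, w r * MT D ε y₁ y₂ r =
      (∑ r ∈ range D, w r * ((∑ y ∈ Icc ⌈y₁⌉ ⌊y₂⌋,
        ee (ε * (y : ℝ) ^ 2 / 2 - (r : ℝ) / D * y)) -
          ∑ ν ∈ Icc (-(M : ℤ) - 1) M, I ((r : ℤ) + D * ν))) +
      ∑ r ∈ Ico (-(K : ℤ)) K, w r * (I r - MT D ε y₁ y₂ r) := by
    simp_rw [mul_sub, sum_sub_distrib]
    rw [← eR]
    ring
  rw [eT]
  refine (norm_add_le _ _).trans ?_
  have b1 : ‖∑ r ∈ range D, w r * ((∑ y ∈ Icc ⌈y₁⌉ ⌊y₂⌋,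
        ee (ε * (y : ℝ) ^ 2 / 2 - (r : ℝ) / D * y)) -
          ∑ ν ∈ Icc (-(M : ℤ) - 1) M, I ((r : ℤ) + D * ν))‖ ≤
      D * (B * (C₁ * (3 + Real.log (1 + |ε| * L)))) := by
    refine (norm_sum_le _ _).trans ?_
    refine (sum_le_sum (g := fun _ => B * (C₁ * (3 + Real.log (1 + |ε| * L)))) ?_).trans ?_
    · intro r hr
      rw [norm_mul]
      exact mul_le_mul (hw _) (hTP r hr) (norm_nonneg _) hB
    · rw [sum_const, card_range, nsmul_eq_mul]
  have b2 : ‖∑ r ∈ Ico (-(K : ℤ)) K, w r * (I r - MT D ε y₁ y₂ r)‖ ≤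
      B * (C₂ * (2 * (2 * (1 / Real.sqrt |ε|) +
        2 * D * (3 + Real.log D + Real.log (1 + |ε| * L))))) := by
    refine (norm_sum_le _ _).trans ?_
    refine (sum_le_sum (g := fun r : ℤ => B * (C₂ *
      (mn (1 / Real.sqrt |ε|) ((D * (ε * y₁) - r) / D) +
        mn (1 / Real.sqrt |ε|) ((D * (ε * y₂) - r) / D)))) ?_).trans ?_
    · intro r _
      rw [norm_mul]
      exact mul_le_mul (hw _) (hFr r) (norm_nonneg _) hB
    · rw [← mul_sum, ← mul_sum, sum_add_distrib]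
      apply mul_le_mul_of_nonneg_left _ hB
      apply mul_le_mul_of_nonneg_left _ hC₂.le
      have h3 := hsum y₁ (Set.left_mem_Icc.mpr hle)
      have h4 := hsum y₂ (Set.right_mem_Icc.mpr hle)
      linarith
  refine (add_le_add b1 b2).trans ?_
  have hBA : 0 ≤ B * (1 / Real.sqrt |ε|) := mul_nonneg hB hA
  have hBD : 0 ≤ B * D := mul_nonneg hB hD'.le
  have g1 : 0 ≤ B * D * Real.log D := mul_nonneg hBD hlD
  have g2 : 0 ≤ B * D * Real.log (1 + |ε| * L) := mul_nonneg hBD hℓ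
  have k1 : 0 ≤ C₁ * (B * (1 / Real.sqrt |ε|)) := mul_nonneg hC₁.le hBA
  have k2 : 0 ≤ C₂ * (B * (1 / Real.sqrt |ε|)) := mul_nonneg hC₂.le hBA
  have k3 : 0 ≤ C₁ * (B * D * Real.log D) := mul_nonneg hC₁.le g1
  have k4 : 0 ≤ C₂ * (B * D * Real.log D) := mul_nonneg hC₂.le g1
  have k5 : 0 ≤ C₁ * (B * D * Real.log (1 + |ε| * L)) := mul_nonneg hC₁.le g2
  have k6 : 0 ≤ C₂ * (B * D * Real.log (1 + |ε| * L)) := mul_nonneg hC₂.le g2
  nlinarith [k1, k2, k3, k4, k5, k6]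

end Pool.Agent.H49.Cubic
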