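import Pool.Agent.H98.Cubic.Targets
import Pool.Agent.H98.Cubic.Basic

/-!
Cubic moment of Hardy's function (`MP_56c76e_nt`, helper98's project): module [Pair],
the inner sum over `y` for one pair `(k, u)`, from [LemQ] and [Gauss].
-/

set_option autoImplicit false

namespace Pool.Agent.H49.Cubic

open Finset Pool.Agent.H98.Cubic

theorem ep_eq (p q k : ℕ) (g : ℤ) (hq : 1 ≤ q) (hk : 1 ≤ k) :
    ep p q g k = (g : ℝ) / (q * k) * (2 * p / q + g / (q * k)) := by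
  have hq' : (q : ℝ) ≠ 0 := by positivity
  have hk' : (k : ℝ) ≠ 0 := by positivity
  unfold ep
  field_simp
  ring

theorem ep_factor_pos (p q k : ℕ) (g : ℤ) (hq : 1 ≤ q) (hpq : q ≤ p) (hk : 1 ≤ k)
    (hg : 2 * |g| ≤ k) : 0 < 2 * (p : ℝ) / q + g / (q * k) := by
  have hq' : (1 : ℝ) ≤ q := by exact_mod_cast hq
  have hk' : (1 : ℝ) ≤ k := by exact_mod_cast hk
  have hp' : (q : ℝ) ≤ p := by exact_mod_cast hpq
  have hg' : 2 * |(g : ℝ)| ≤ k := by exact_mod_cast hg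
  have h1 : -|(g : ℝ)| ≤ g := neg_abs_le _
  have e : 2 * (p : ℝ) / q + g / (q * k) = (2 * p * k + g) / (q * k) := by field_simp
  rw [e]
  apply div_pos _ (by positivity)
  nlinarith

theorem pair (h1 : TLemQ) (h2 : TGauss) : TPair := by
  obtain ⟨C, hC, HL⟩ := h1
  refine ⟨4 * C, by positivity, ?_⟩
  intro p q hq hpq hcop
  obtain ⟨w, hper, hw, hexp⟩ := h2 p q hq hcop
  refine ⟨w, hw, ?_⟩
  intro k g y₁ y₂ L R hk hg hgk hy₁ hy₂ hL hR
  have hq' : (1 : ℝ) ≤ q := by exact_mod_cast hq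
  have hq0 : (0 : ℝ) < q := by linarith
  have hk' : (1 : ℝ) ≤ k := by exact_mod_cast hk
  have hF := ep_factor_pos p q k g hq hpq hk hgk
  have hE := ep_eq p q k g hq hk
  have hg' : (g : ℝ) ≠ 0 := by exact_mod_cast hg
  have hqk : (0 : ℝ) < q * k := by positivity
  set ε := ep p q g k with hε
  have hε0 : ε ≠ 0 := by
    rw [hE]
    exact mul_ne_zero (div_ne_zero hg' hqk.ne') hF.ne'
  have hsgn : (0 < ε) ↔ (0 < g) := by
    rw [hE, mul_pos_iff_of_pos_right hF, div_pos_iff_of_pos_right hqk]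
    exact Int.cast_pos
  have hD : 0 < 2 * q ^ 2 := by positivity
  have key := HL (2 * q ^ 2) R (1 / q) L ε y₁ y₂ w hD (by positivity) hper hw hε0 hy₁ hy₂ hL
    (by push_cast; linarith)
  have e1 : (∑ y ∈ Icc ⌈y₁⌉ ⌊y₂⌋,
          (∑ r ∈ range (2 * q ^ 2), w r * ee (-((r : ℝ) * y) / ((2 * q ^ 2 : ℕ) : ℝ))) *
            ee (ε * (y : ℝ) ^ 2 / 2)) = Sy y₁ y₂ (((p : ℝ) * k + g) / (q * k)) := by
    unfold Sy
    apply sum_congr rfl
    intro y _
    rw [← hexp y, ← ee_add]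
    congr 1
    rw [hε]
    unfold ep
    ring
  have e2 : (∑ r ∈ (Icc (-(R : ℤ)) R).filter
              (fun r : ℤ => y₁ ≤ (r : ℝ) / (2 * (q : ℝ) ^ 2 * ε) ∧
                (r : ℝ) / (2 * (q : ℝ) ^ 2 * ε) ≤ y₂),
            w r * ((1 / Real.sqrt |ε| : ℝ) : ℂ) * sg g *
              ee (-((r : ℝ) ^ 2) / (8 * (q : ℝ) ^ 4 * ε))) =
      ∑ r ∈ (Icc (-(R : ℤ)) R).filter
            (fun r : ℤ => y₁ ≤ (r : ℝ) / (((2 * q ^ 2 : ℕ) : ℝ) * ε) ∧
              (r : ℝ) / (((2 * q ^ 2 : ℕ) : ℝ) * ε) ≤ y₂),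
          w r * ((1 / Real.sqrt |ε| : ℝ) : ℂ) * (if 0 < ε then ee (1 / 8) else ee (-1 / 8)) *
            ee (-((r : ℝ) ^ 2) / (2 * (((2 * q ^ 2 : ℕ) : ℝ)) ^ 2 * ε)) := by
    have e3 : ((2 * q ^ 2 : ℕ) : ℝ) = 2 * (q : ℝ) ^ 2 := by push_cast; ring
    rw [e3]
    apply sum_congr rfl
    intro r _
    congr 2
    · unfold sg
      by_cases h : 0 < g
      · rw [if_pos h, if_pos (hsgn.mpr h)]
      · rw [if_neg h, if_neg (fun h' => h (hsgn.mp h'))]
    · congr 1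
      ring
  rw [e1] at key
  rw [e2]
  refine key.trans ?_
  have hℓ : 0 ≤ Real.log (1 + |ε| * L) := Real.log_nonneg (by
    have := mul_nonneg (abs_nonneg ε) hL
    linarith)
  have hlq : 0 ≤ Real.log q := Real.log_nonneg hq'
  have e3 : Real.log ((2 * q ^ 2 : ℕ) : ℝ) = Real.log 2 + 2 * Real.log q := by
    push_cast
    rw [Real.log_mul (by norm_num) (by positivity), Real.log_pow]
    norm_num
  have hl2 : Real.log 2 ≤ 1 := by
    have := Real.log_two_lt_d9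
    linarith
  rw [e3]
  have e4 : C * (1 / q) * (1 / Real.sqrt |ε| + ((2 * q ^ 2 : ℕ) : ℝ) *
      (1 + (Real.log 2 + 2 * Real.log q) + Real.log (1 + |ε| * L))) =
      C * (1 / (q * Real.sqrt |ε|) + q * (2 * (1 + (Real.log 2 + 2 * Real.log q) +
        Real.log (1 + |ε| * L)))) := by
    push_cast
    have hs : Real.sqrt |ε| ≠ 0 := by
      have : 0 < |ε| := abs_pos.mpr hε0
      positivity
    field_simp
  rw [e4]
  have hx : 0 ≤ 1 / ((q : ℝ) * Real.sqrt |ε|) := by positivity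
  have h5 : (q : ℝ) * (2 * (1 + (Real.log 2 + 2 * Real.log q) + Real.log (1 + |ε| * L))) ≤
      4 * (q * (1 + Real.log q + Real.log (1 + |ε| * L))) := by
    have : 2 * (1 + (Real.log 2 + 2 * Real.log q) + Real.log (1 + |ε| * L)) ≤
      4 * (1 + Real.log q + Real.log (1 + |ε| * L)) := by linarith
    nlinarith
  have h6 : 1 / ((q : ℝ) * Real.sqrt |ε|) +
      q * (2 * (1 + (Real.log 2 + 2 * Real.log q) + Real.log (1 + |ε| * L))) ≤
      4 * (1 / (q * Real.sqrt |ε|) + q * (1 + Real.log q + Real.log (1 + |ε| * L))) := by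
    linarith
  calc _ ≤ C * (4 * (1 / (q * Real.sqrt |ε|) +
        q * (1 + Real.log q + Real.log (1 + |ε| * L)))) := mul_le_mul_of_nonneg_left h6 hC.le
    _ = _ := by ring

end Pool.Agent.H49.Cubic
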